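import Mathlib

set_option autoImplicit false
set_option linter.style.haveILetI false

namespace Pool.Agent.P52d521

open Function

universe u v w

/-- Homomorphisms to an algebraically closed field extend along injective integral extensions. -/
theorem exists_extend {R : Type u} {S : Type v} {Ω : Type w} [CommRing R] [CommRing S] [Algebra R S]
    [Algebra.IsIntegral R S] (hinj : Injective (algebraMap R S)) [Field Ω] [IsAlgClosed Ω]
    (φ : R →+* Ω) : ∃ ψ : S →+* Ω, ψ.comp (algebraMap R S) = φ := by
  classical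
  set P : Ideal R := RingHom.ker φ with hP
  haveI : P.IsPrime := RingHom.ker_isPrime φ
  obtain ⟨Q, -, hQp, hQ⟩ := Ideal.exists_ideal_over_prime_of_isIntegral P (⊥ : Ideal S) (by
    intro x hx
    have : x = 0 := by
      apply hinj
      rw [map_zero]
      simpa using hx
    rw [this]; exact P.zero_mem)
  haveI := hQp
  haveI : IsDomain (R ⧸ P) := Ideal.Quotient.isDomain P
  haveI : IsDomain (S ⧸ Q) := Ideal.Quotient.isDomain Q
  have hle : P ≤ Q.comap (algebraMap R S) := by rw [hQ]
  letI : Algebra (R ⧸ P) (S ⧸ Q) := (Ideal.quotientMap Q (algebraMap R S) hle).toAlgebra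
  letI : Algebra (R ⧸ P) Ω := (RingHom.kerLift φ).toAlgebra
  have h1 : Injective (algebraMap (R ⧸ P) (S ⧸ Q)) := by
    show Injective (Ideal.quotientMap Q (algebraMap R S) hle)
    exact Ideal.quotientMap_injective' (by rw [hQ])
  have h2 : Injective (algebraMap (R ⧸ P) Ω) := RingHom.kerLift_injective φ
  haveI : FaithfulSMul (R ⧸ P) (S ⧸ Q) := (faithfulSMul_iff_algebraMap_injective _ _).2 h1
  haveI : FaithfulSMul (R ⧸ P) Ω := (faithfulSMul_iff_algebraMap_injective _ _).2 h2
  haveI : Algebra.IsIntegral (R ⧸ P) (S ⧸ Q) := by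
    constructor
    intro x
    obtain ⟨s, rfl⟩ := Ideal.Quotient.mk_surjective x
    obtain ⟨f, hf, hf0⟩ := Algebra.IsIntegral.isIntegral (R := R) s
    refine ⟨f.map (Ideal.Quotient.mk P), hf.map _, ?_⟩
    rw [Polynomial.eval₂_map]
    have h3 : (algebraMap (R ⧸ P) (S ⧸ Q)).comp (Ideal.Quotient.mk P)
        = (Ideal.Quotient.mk Q).comp (algebraMap R S) := by
      ext r; rfl
    rw [h3, ← Polynomial.hom_eval₂, hf0, map_zero]
  haveI : Algebra.IsAlgebraic (R ⧸ P) (S ⧸ Q) := inferInstance
  let L : (S ⧸ Q) →ₐ[R ⧸ P] Ω := IsAlgClosed.lift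
  refine ⟨(L : (S ⧸ Q) →+* Ω).comp (Ideal.Quotient.mk Q), ?_⟩
  ext r
  have := L.commutes (Ideal.Quotient.mk P r)
  exact this

/-- A finitely generated algebra over a field with only finitely many homomorphisms to an
algebraically closed extension field is finite dimensional. -/
theorem finite_of_finite_algHom {κ : Type u} {R : Type v} {Ω : Type w} [Field κ] [CommRing R]
    [Algebra κ R] [Algebra.FiniteType κ R] [Field Ω] [IsAlgClosed Ω] [Algebra κ Ω]
    (h : Finite (R →ₐ[κ] Ω)) : Module.Finite κ R := by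
  classical
  rcases subsingleton_or_nontrivial R with hR | hR
  · infer_instance
  obtain ⟨s, g, hg, hgf⟩ := exists_finite_inj_algHom_of_fg κ R
  rcases Nat.eq_zero_or_pos s with rfl | hs
  · let e : MvPolynomial (Fin 0) κ ≃ₐ[κ] κ := MvPolynomial.isEmptyAlgEquiv κ (Fin 0)
    letI : Algebra (MvPolynomial (Fin 0) κ) R := g.toRingHom.toAlgebra
    haveI : IsScalarTower κ (MvPolynomial (Fin 0) κ) R :=
      IsScalarTower.of_algebraMap_eq (fun x => (g.commutes x).symm)
    haveI : Module.Finite (MvPolynomial (Fin 0) κ) R := hgf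
    haveI : Module.Finite κ (MvPolynomial (Fin 0) κ) := Module.Finite.equiv e.symm.toLinearEquiv
    exact Module.Finite.trans (MvPolynomial (Fin 0) κ) R
  · exfalso
    letI : Algebra (MvPolynomial (Fin s) κ) R := g.toRingHom.toAlgebra
    haveI : Module.Finite (MvPolynomial (Fin s) κ) R := hgf
    haveI : Algebra.IsIntegral (MvPolynomial (Fin s) κ) R := inferInstance
    have key : ∀ c : Ω, ∃ ψ : R →ₐ[κ] Ω, ψ (g (MvPolynomial.X ⟨0, hs⟩)) = c := by
      intro c
      obtain ⟨ψ, hψ⟩ := exists_extend (R := MvPolynomial (Fin s) κ) (S := R) hg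
        ((MvPolynomial.aeval (fun _ : Fin s => c) : MvPolynomial (Fin s) κ →ₐ[κ] Ω) :
          MvPolynomial (Fin s) κ →+* Ω)
      have hψ' : ∀ f, ψ (g f) = MvPolynomial.aeval (fun _ : Fin s => c) f := fun f =>
        RingHom.congr_fun hψ f
      refine ⟨⟨ψ, ?_⟩, ?_⟩
      · intro r
        have := hψ' (algebraMap κ _ r)
        rw [g.commutes] at this
        simpa using this
      · have := hψ' (MvPolynomial.X ⟨0, hs⟩)
        simpa using this
    choose F hF using key
    have hFinj : Injective F := by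
      intro a b hab
      rw [← hF a, ← hF b, hab]
    exact (Infinite.of_injective F hFinj).not_finite h

open TensorProduct in
/-- Finitely many homomorphisms over `B` to an algebraically closed field imply finitely many
homomorphisms of the base change to any intermediate field. -/
theorem finite_baseChange_algHom {B : Type u} {A : Type v} {Ω : Type w} [CommRing B] [CommRing A]
    [Algebra B A] [Field Ω] [Algebra B Ω] {K : Type*} [Field K] [Algebra B K] [Algebra K Ω]
    [IsScalarTower B K Ω] (h : Finite (A →ₐ[B] Ω)) : Finite (K ⊗[B] A →ₐ[K] Ω) := by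
  refine Finite.of_injective (fun ψ : K ⊗[B] A →ₐ[K] Ω =>
    (ψ.restrictScalars B).comp (Algebra.TensorProduct.includeRight : A →ₐ[B] K ⊗[B] A)) ?_
  intro ψ₁ ψ₂ h12
  apply Algebra.TensorProduct.ext
  · ext
  · exact h12

open TensorProduct in
theorem isAlgebraic_of_finite {B : Type u} {A : Type v} {Ω : Type w} [CommRing B] [IsDomain B]
    [CommRing A] [IsDomain A] [Algebra B A] [FaithfulSMul B A] [Algebra.FiniteType B A]
    [Field Ω] [IsAlgClosed Ω] [Algebra B Ω] [FaithfulSMul B Ω] (h : Finite (A →ₐ[B] Ω)) :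
    Algebra.IsAlgebraic B A := by
  classical
  let K := FractionRing B
  let L := FractionRing A
  letI : Algebra K Ω := FractionRing.liftAlgebra B Ω
  haveI : IsScalarTower B K Ω := FractionRing.isScalarTower_liftAlgebra B Ω
  haveI : FaithfulSMul B L := by
    rw [faithfulSMul_iff_algebraMap_injective, IsScalarTower.algebraMap_eq B A L]
    exact (IsFractionRing.injective A L).comp (FaithfulSMul.algebraMap_injective B A)
  letI : Algebra K L := FractionRing.liftAlgebra B L
  haveI : IsScalarTower B K L := FractionRing.isScalarTower_liftAlgebra B L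
  haveI : Module.Finite K (K ⊗[B] A) := finite_of_finite_algHom (Ω := Ω)
    (finite_baseChange_algHom h)
  let f : K ⊗[B] A →ₐ[K] L := Algebra.TensorProduct.lift (Algebra.ofId K L)
    (IsScalarTower.toAlgHom B A L) (fun _ _ => Commute.all _ _)
  constructor
  intro a
  have h1 : IsIntegral K (f (1 ⊗ₜ a)) := (Algebra.IsIntegral.isIntegral (R := K)
    ((1 : K) ⊗ₜ[B] a)).map f
  have h2 : f (1 ⊗ₜ a) = algebraMap A L a := by
    simp [f]
  rw [h2] at h1
  have h3 : IsAlgebraic B (algebraMap A L a) :=
    (IsFractionRing.isAlgebraic_iff B K L).2 h1.isAlgebraic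
  exact (isAlgebraic_algebraMap_iff (IsFractionRing.injective A L)).1 h3

open TensorProduct in
theorem weaklyQuasiFiniteAt_of_finite {B : Type u} {A : Type v} {Ω : Type w} [CommRing B]
    [CommRing A] [Algebra B A] [Algebra.FiniteType B A]
    [Field Ω] [IsAlgClosed Ω] [Algebra B Ω] (h : Finite (A →ₐ[B] Ω)) (x : A →ₐ[B] Ω)
    (q : Ideal A) [q.IsPrime] (hq : q = RingHom.ker x) :
    Algebra.WeaklyQuasiFiniteAt B q := by
  classical
  let P : Ideal B := RingHom.ker (algebraMap B Ω)
  haveI : P.IsPrime := RingHom.ker_isPrime _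
  let κ := P.ResidueField
  let ι : κ →+* Ω := Ideal.ResidueField.lift P (algebraMap B Ω) le_rfl (by
    intro b hb
    have hb' : b ∉ P := hb
    have : algebraMap B Ω b ≠ 0 := hb'
    exact this.isUnit)
  letI : Algebra κ Ω := ι.toAlgebra
  haveI : IsScalarTower B κ Ω := IsScalarTower.of_algebraMap_eq (fun b =>
    (Ideal.ResidueField.lift_algebraMap P (algebraMap B Ω) le_rfl _ b).symm)
  haveI : q.LiesOver P := by
    constructor
    ext b
    rw [hq]
    simp [P, RingHom.mem_ker, Ideal.under]
  haveI : Module.Finite κ (κ ⊗[B] A) := finite_of_finite_algHom (Ω := Ω)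
    (finite_baseChange_algHom h)
  let f : κ ⊗[B] A →ₐ[κ] Ω := Algebra.TensorProduct.lift (Algebra.ofId κ Ω)
    x (fun _ _ => Commute.all _ _)
  let Q : Ideal (P.Fiber A) := RingHom.ker (f : κ ⊗[B] A →+* Ω)
  haveI : Q.IsPrime := RingHom.ker_isPrime _
  haveI : Algebra.QuasiFiniteAt P.ResidueField Q := inferInstance
  refine Algebra.WeaklyQuasiFiniteAt.of_quasiFiniteAt_residueField P q Q ?_
  ext a
  rw [hq]
  simp [Q, f, RingHom.mem_ker]

end Pool.Agent.P52d521
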