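import Mathlib
import Pool.Agent.Lib.P52d521.Key

set_option autoImplicit false
set_option linter.style.haveILetI false

namespace Pool.Agent.P52d521

open Function

universe u v w

/-- Finitely many pairs of homomorphisms to a field of characteristic zero which are separated by
elements of a subring can be separated simultaneously by one element. -/
theorem exists_separating {A : Type v} {Ω : Type w} [CommRing A] [Field Ω] [CharZero Ω]
    (A' : Subring A) {ι : Type*} (x : ι → A →+* Ω) (T : Finset (ι × ι))
    (hT : ∀ t ∈ T, ∃ a ∈ A', x t.1 a ≠ x t.2 a) : ∃ h ∈ A', ∀ t ∈ T, x t.1 h ≠ x t.2 h := by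
  classical
  induction T using Finset.induction_on with
  | empty => exact ⟨0, A'.zero_mem, by simp⟩
  | insert t T ht ih =>
    obtain ⟨h, hA, hh⟩ := ih (fun s hs => hT s (Finset.mem_insert_of_mem hs))
    by_cases hth : x t.1 h ≠ x t.2 h
    · refine ⟨h, hA, ?_⟩
      intro s hs
      rcases Finset.mem_insert.1 hs with rfl | hs
      · exact hth
      · exact hh s hs
    · push Not at hth
      obtain ⟨a, haA, ha⟩ := hT t (Finset.mem_insert_self _ _)
      -- bad set of n
      let bad : Set ℕ := ⋃ s ∈ T, {n : ℕ | (n : Ω) * (x s.1 h - x s.2 h) + (x s.1 a - x s.2 a) = 0}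
      have hbad : bad.Finite := by
        apply Set.Finite.biUnion T.finite_toSet
        intro s hs
        apply Set.Subsingleton.finite
        intro n hn m hm
        have hn' : (n : Ω) * (x s.1 h - x s.2 h) + (x s.1 a - x s.2 a) = 0 := hn
        have hm' : (m : Ω) * (x s.1 h - x s.2 h) + (x s.1 a - x s.2 a) = 0 := hm
        have h1 : x s.1 h - x s.2 h ≠ 0 := sub_ne_zero.2 (hh s hs)
        have h2 : (n : Ω) * (x s.1 h - x s.2 h) = (m : Ω) * (x s.1 h - x s.2 h) := by
          linear_combination hn' - hm'
        have h3 := mul_right_cancel₀ h1 h2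
        exact_mod_cast h3
      obtain ⟨n, hn⟩ := hbad.exists_notMem
      refine ⟨(n : A) * h + a, A'.add_mem (A'.mul_mem (natCast_mem A' n) hA) haA, ?_⟩
      intro s hs
      rcases Finset.mem_insert.1 hs with rfl | hs
      · simp only [map_add, map_mul, map_natCast, hth]
        intro h4
        exact ha (add_left_cancel h4)
      · intro h4
        apply hn
        simp only [map_add, map_mul, map_natCast] at h4
        refine Set.mem_biUnion hs ?_
        show (n : Ω) * (x s.1 h - x s.2 h) + (x s.1 a - x s.2 a) = 0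
        linear_combination h4

/-- Zariski's main theorem: distinct homomorphisms in a finite family of points over a point of
`Spec B` remain distinct on the integral closure of `B`. -/
theorem exists_isIntegral_ne {B : Type u} {A : Type v} {Ω : Type w} [CommRing B]
    [CommRing A] [Algebra B A] [Algebra.FiniteType B A]
    [Field Ω] [IsAlgClosed Ω] [Algebra B Ω] (h : Finite (A →ₐ[B] Ω)) (x y : A →ₐ[B] Ω)
    (hxy : x ≠ y) : ∃ a : A, IsIntegral B a ∧ x a ≠ y a := by
  classical
  by_contra hcon
  push Not at hcon
  apply hxy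
  let q : Ideal A := RingHom.ker (x : A →+* Ω)
  haveI : q.IsPrime := RingHom.ker_isPrime _
  haveI : Algebra.WeaklyQuasiFiniteAt B q := weaklyQuasiFiniteAt_of_finite h x q rfl
  have hz : Algebra.ZariskisMainProperty B q :=
    Algebra.ZariskisMainProperty.of_finiteType_of_weaklyQuasiFiniteAt q
  obtain ⟨r, hr, hri, hm⟩ := Algebra.zariskisMainProperty_iff.1 hz
  have hr0 : x r ≠ 0 := by
    intro h0
    exact hr h0
  ext a
  obtain ⟨m, hm⟩ := hm a
  have h1 := hcon _ hm
  have h2 := hcon _ hri
  rw [map_mul, map_mul, map_pow, map_pow, ← h2] at h1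
  exact mul_left_cancel₀ (pow_ne_zero m hr0) h1

theorem card_le_natDegree_minpoly {B : Type u} {A : Type v} {Ω : Type w} [CommRing B]
    [CommRing A] [Algebra B A] [Algebra.FiniteType B A]
    [Field Ω] [IsAlgClosed Ω] [CharZero Ω] [Algebra B Ω] (h : Finite (A →ₐ[B] Ω)) :
    ∃ a : A, IsIntegral B a ∧ Nat.card (A →ₐ[B] Ω) ≤ (minpoly B a).natDegree := by
  classical
  haveI : Fintype (A →ₐ[B] Ω) := Fintype.ofFinite _
  obtain ⟨a, haA, ha⟩ := exists_separating (integralClosure B A).toSubring
    (fun x : A →ₐ[B] Ω => (x : A →+* Ω)) (Finset.univ.filter (fun t => t.1 ≠ t.2)) (by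
      intro t ht
      obtain ⟨a, ha, hne⟩ := exists_isIntegral_ne h t.1 t.2 (Finset.mem_filter.1 ht).2
      exact ⟨a, ha, hne⟩)
  have haI : IsIntegral B a := haA
  refine ⟨a, haI, ?_⟩
  have hinj : Injective (fun x : A →ₐ[B] Ω => x a) := by
    intro x y hxy
    by_contra hne
    exact ha (x, y) (by simp [hne]) hxy
  set μ := (minpoly B a).map (algebraMap B Ω) with hμ
  have hμm : μ.Monic := (minpoly.monic haI).map _
  have hroot : ∀ x : A →ₐ[B] Ω, x a ∈ μ.roots.toFinset := by
    intro x
    rw [Multiset.mem_toFinset, Polynomial.mem_roots hμm.ne_zero, Polynomial.IsRoot.def, hμ,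
      Polynomial.eval_map_algebraMap, Polynomial.aeval_algHom_apply, minpoly.aeval, map_zero]
  rw [Nat.card_eq_fintype_card]
  calc Fintype.card (A →ₐ[B] Ω) = (Finset.univ.image (fun x : A →ₐ[B] Ω => x a)).card := by
        rw [Finset.card_image_of_injective _ hinj, Finset.card_univ]
    _ ≤ μ.roots.toFinset.card := by
        apply Finset.card_le_card
        intro z hz
        obtain ⟨x, -, rfl⟩ := Finset.mem_image.1 hz
        exact hroot x
    _ ≤ Multiset.card μ.roots := Multiset.toFinset_card_le _
    _ ≤ μ.natDegree := Polynomial.card_roots' _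
    _ ≤ (minpoly B a).natDegree := Polynomial.natDegree_map_le

open TensorProduct in
theorem finite_fractionRing {B : Type u} {A : Type v} {Ω : Type w} [CommRing B] [IsDomain B]
    [CommRing A] [IsDomain A] [Algebra B A] [FaithfulSMul B A] [Algebra.FiniteType B A]
    [Field Ω] [IsAlgClosed Ω] [Algebra B Ω] [FaithfulSMul B Ω] (h : Finite (A →ₐ[B] Ω))
    (K L : Type*) [Field K] [Field L] [Algebra B K] [Algebra A L] [Algebra B L] [Algebra K L]
    [IsFractionRing B K] [IsFractionRing A L] [IsScalarTower B K L] [IsScalarTower B A L]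
    [Algebra K Ω] [IsScalarTower B K Ω] :
    Module.Finite K L := by
  classical
  haveI : Module.Finite K (K ⊗[B] A) := finite_of_finite_algHom (Ω := Ω)
    (finite_baseChange_algHom h)
  let f : K ⊗[B] A →ₐ[K] L := Algebra.TensorProduct.lift (Algebra.ofId K L)
    (IsScalarTower.toAlgHom B A L) (fun _ _ => Commute.all _ _)
  have hA : ∀ a : A, algebraMap A L a ∈ f.range := by
    intro a
    refine ⟨1 ⊗ₜ a, ?_⟩
    simp [f]
  have hint : ∀ z ∈ f.range, IsIntegral K z := by
    rintro z ⟨t, rfl⟩
    exact (Algebra.IsIntegral.isIntegral (R := K) t).map f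
  have hsurj : Surjective f := by
    intro l
    obtain ⟨a, b, hb, rfl⟩ := IsFractionRing.div_surjective (A := A) l
    have h1 : (algebraMap A L b)⁻¹ ∈ f.range :=
      f.range.inv_mem_of_algebraic (x := ⟨algebraMap A L b, hA b⟩) (hint _ (hA b)).isAlgebraic
    have h2 := f.range.mul_mem (hA a) h1
    rw [div_eq_mul_inv]
    exact h2
  exact Module.Finite.of_surjective f.toLinearMap hsurj

/-- **Main counting theorem.** Let `B ⊆ A` be domains with `B` integrally closed and `A` finitely
generated over `B`.  If a homomorphism from `B` to an algebraically closed field of characteristic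
zero has only finitely many extensions to `A`, the number of these extensions is at most the number
of extensions of any injective homomorphism (if that is finite). -/
theorem card_le_card {B : Type u} {A : Type v} {Ω₁ : Type w} {Ω₂ : Type w} [CommRing B]
    [IsDomain B] [IsIntegrallyClosed B] [CommRing A] [IsDomain A] [Algebra B A] [FaithfulSMul B A]
    [Algebra.FiniteType B A] [Field Ω₁] [IsAlgClosed Ω₁] [CharZero Ω₁] [Algebra B Ω₁]
    [Field Ω₂] [IsAlgClosed Ω₂] [CharZero Ω₂] [Algebra B Ω₂] [FaithfulSMul B Ω₂]
    (h₁ : Finite (A →ₐ[B] Ω₁)) (h₂ : Finite (A →ₐ[B] Ω₂)) :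
    Nat.card (A →ₐ[B] Ω₁) ≤ Nat.card (A →ₐ[B] Ω₂) := by
  classical
  let K := FractionRing B
  let L := FractionRing A
  letI : Algebra K Ω₂ := FractionRing.liftAlgebra B Ω₂
  haveI : IsScalarTower B K Ω₂ := FractionRing.isScalarTower_liftAlgebra B Ω₂
  haveI : FaithfulSMul B L := by
    rw [faithfulSMul_iff_algebraMap_injective, IsScalarTower.algebraMap_eq B A L]
    exact (IsFractionRing.injective A L).comp (FaithfulSMul.algebraMap_injective B A)
  letI : Algebra K L := FractionRing.liftAlgebra B L
  haveI : IsScalarTower B K L := FractionRing.isScalarTower_liftAlgebra B L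
  haveI : Module.Finite K L := finite_fractionRing h₂ K L
  haveI : CharZero K := by
    refine ⟨fun m n hmn => ?_⟩
    have := congrArg (algebraMap K Ω₂) hmn
    rw [map_natCast, map_natCast] at this
    exact_mod_cast this
  obtain ⟨a, ha, hle⟩ := card_le_natDegree_minpoly h₁
  refine hle.trans ?_
  have h3 : (minpoly B a).natDegree = (minpoly K (algebraMap A L a)).natDegree := by
    rw [minpoly.isIntegrallyClosed_eq_field_fractions K L ha]
    rw [Polynomial.natDegree_map_eq_of_injective (IsFractionRing.injective B K)]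
  rw [h3]
  refine (minpoly.natDegree_le _).trans ?_
  rw [← AlgHom.card K L Ω₂, ← Nat.card_eq_fintype_card]
  refine Nat.card_le_card_of_injective (fun σ : L →ₐ[K] Ω₂ =>
    (σ.restrictScalars B).comp (IsScalarTower.toAlgHom B A L)) ?_
  intro σ τ hστ
  apply AlgHom.coe_ringHom_injective
  apply IsLocalization.ringHom_ext (nonZeroDivisors A)
  ext a
  exact AlgHom.congr_fun hστ a

end Pool.Agent.P52d521
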