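import Mathlib

set_option autoImplicit false
set_option linter.style.haveILetI false

namespace Pool.Agent.P52d521

open Function

/-- Squared distance. -/
def sd {V : Type} {R : Type*} [CommRing R] (r : V → Fin 2 → R) (u v : V) : R :=
  ∑ k : Fin 2, (r u k - r v k) ^ 2

/-- Expanded `3 × 3` minor. -/
def det3 {V : Type} {R : Type*} [CommRing R] (g : V → V → R) (a b c x y z : V) : R :=
  g a x * (g b y * g c z - g b z * g c y) - g a y * (g b x * g c z - g b z * g c x)
    + g a z * (g b x * g c y - g b y * g c x)

theorem sd_symm {V : Type} {R : Type*} [CommRing R] (r : V → Fin 2 → R) (u v : V) :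
    sd r u v = sd r v u := by
  simp only [sd, Fin.sum_univ_two]; ring

theorem sd_self {V : Type} {R : Type*} [CommRing R] (r : V → Fin 2 → R) (u : V) :
    sd r u u = 0 := by
  simp [sd]

theorem sd_det3 {V : Type} {R : Type*} [CommRing R] (r : V → Fin 2 → R) (o a b c x y z : V) :
    det3 (fun u v => sd r u o + sd r v o - sd r u v) a b c x y z = 0 := by
  have h : ∀ u v, sd r u o + sd r v o - sd r u v
      = 2 * ((r u 0 - r o 0) * (r v 0 - r o 0) + (r u 1 - r o 1) * (r v 1 - r o 1)) := by
    intro u v
    simp only [sd, Fin.sum_univ_two]; ring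
  simp only [det3, h]
  ring

/-- A complex symmetric matrix all of whose `3 × 3` minors vanish is of the form `Z Zᵀ` with two
columns. -/
theorem gram_factor {V : Type} (g : V → V → ℂ) (hs : ∀ u v, g u v = g v u)
    (hm : ∀ a b c x y z, det3 g a b c x y z = 0) :
    ∃ Z : V → Fin 2 → ℂ, ∀ u v, g u v = Z u 0 * Z v 0 + Z u 1 * Z v 1 := by
  classical
  by_cases hdiag : ∃ u, g u u ≠ 0
  · obtain ⟨u, hu⟩ := hdiag
    obtain ⟨c, hc⟩ := IsAlgClosed.exists_eq_mul_self (g u u)
    have hc0 : c ≠ 0 := by rintro rfl; simp at hc; exact hu hc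
    -- Schur complement
    let g' : V → V → ℂ := fun v w => g v w - (g u v / c) * (g u w / c)
    have hg' : ∀ v w, g u u * g' v w = g u u * g v w - g u v * g u w := by
      intro v w
      simp only [g']
      rw [hc]; field_simp
    have hmin : ∀ v w v' w', g' v w * g' v' w' = g' v w' * g' v' w := by
      intro v w v' w'
      have h3 := hm u v v' u w w'
      simp only [det3] at h3
      have e1 := hg' v w
      have e2 := hg' v' w'
      have e3 := hg' v w'
      have e4 := hg' v' w
      rw [hs v u, hs v' u] at h3
      apply mul_left_cancel₀ hu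
      apply mul_left_cancel₀ hu
      have : g u u * (g u u * (g' v w * g' v' w')) - g u u * (g u u * (g' v w' * g' v' w))
          = (g u u * g' v w) * (g u u * g' v' w') - (g u u * g' v w') * (g u u * g' v' w) := by
        ring
      rw [← sub_eq_zero, this, e1, e2, e3, e4]
      linear_combination (g u u) * h3
    have hs' : ∀ v w, g' v w = g' w v := by
      intro v w
      simp only [g']; rw [hs v w]; ring
    by_cases hd' : ∃ v, g' v v ≠ 0
    · obtain ⟨v, hv⟩ := hd'
      obtain ⟨d, hd⟩ := IsAlgClosed.exists_eq_mul_self (g' v v)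
      have hd0 : d ≠ 0 := by rintro rfl; simp at hd; exact hv hd
      refine ⟨fun w k => if k = 0 then g u w / c else g' v w / d, ?_⟩
      intro w w'
      have h1 := hmin v v w w'
      have h2 : g' w w' = (g' v w / d) * (g' v w' / d) := by
        have : g' v v * g' w w' = g' v w * g' v w' := by
          rw [h1, hs' w v]; ring
        rw [hd] at this
        field_simp
        linear_combination this
      have h3 : g w w' = g' w w' + (g u w / c) * (g u w' / c) := by simp only [g']; ring
      rw [h3, h2]
      simp
      ring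
    · push Not at hd'
      refine ⟨fun w k => if k = 0 then g u w / c else 0, ?_⟩
      intro w w'
      have h1 := hmin w w' w w'
      have h1' := hmin w w w' w'
      have h2 : g' w w' = 0 := by
        rw [hd' w, zero_mul, hs' w' w] at h1'
        have : g' w w' * g' w w' = 0 := h1'.symm
        simpa using this
      have h3 : g w w' = g' w w' + (g u w / c) * (g u w' / c) := by simp only [g']; ring
      rw [h3, h2]
      simp
  · push Not at hdiag
    by_cases hz : ∃ u v, g u v ≠ 0
    · obtain ⟨u, v, huv⟩ := hz
      obtain ⟨c, hc⟩ := IsAlgClosed.exists_eq_mul_self (2 * g u v)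
      have hc0 : c ≠ 0 := by rintro rfl; simp at hc; exact huv hc
      refine ⟨fun w k => if k = 0 then (g u w + g v w) / c
        else Complex.I * (g u w - g v w) / c, ?_⟩
      intro w w'
      have h3 := hm u v w u v w'
      simp only [det3, hdiag, hs v u, hs w u, hs w v] at h3
      have h4 : g u v * g w w' = g v w' * g u w + g u w' * g v w := by
        apply mul_left_cancel₀ huv
        linear_combination -h3
      have h5 : c * c * g w w' = 2 * (g v w' * g u w + g u w' * g v w) := by
        rw [← hc]; linear_combination 2 * h4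
      have hI : Complex.I ^ 2 = -1 := Complex.I_sq
      simp
      field_simp
      rw [hI]
      linear_combination h5
    · push Not at hz
      exact ⟨fun _ _ => 0, fun u v => by simp [hz u v]⟩

/-- Realisation of a distance function. -/
theorem realise {V : Type} (δ : V → V → ℂ) (o : V) (h0 : ∀ u, δ u u = 0)
    (hs : ∀ u v, δ u v = δ v u)
    (hm : ∀ a b c x y z, det3 (fun u v => δ u o + δ v o - δ u v) a b c x y z = 0) :
    ∃ r : V → Fin 2 → ℂ, ∀ u v, sd r u v = δ u v := by
  obtain ⟨c, hc⟩ := IsAlgClosed.exists_eq_mul_self (2 : ℂ)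
  have hc0 : c ≠ 0 := by rintro rfl; simp at hc
  obtain ⟨Z, hZ⟩ := gram_factor (fun u v => δ u o + δ v o - δ u v) (by
    intro u v; show δ u o + δ v o - δ u v = δ v o + δ u o - δ v u
    rw [hs u v]; ring) hm
  refine ⟨fun u k => Z u k / c, ?_⟩
  intro u v
  have h1 := hZ u u
  have h2 := hZ v v
  have h3 := hZ u v
  simp only [h0] at h1 h2 h3
  simp only [sd, Fin.sum_univ_two]
  have : (Z u 0 / c - Z v 0 / c) ^ 2 + (Z u 1 / c - Z v 1 / c) ^ 2
      = ((Z u 0 * Z u 0 + Z u 1 * Z u 1) + (Z v 0 * Z v 0 + Z v 1 * Z v 1)
        - 2 * (Z u 0 * Z v 0 + Z u 1 * Z v 1)) / (c * c) := by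
    field_simp
    ring
  rw [this, ← h1, ← h2, ← h3, ← hc]
  ring

end Pool.Agent.P52d521
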