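import Mathlib
import Pool.Agent.Lib.P52d521.Gram

set_option autoImplicit false
set_option linter.style.haveILetI false

namespace Pool.Agent.P52d521

open Function

theorem indep_of_algebraic {ι : Type} [Fintype ι] (x : ι → ℂ) (hx : AlgebraicIndependent ℚ x)
    (T : Set ℂ) (hT : T.encard ≤ Fintype.card ι)
    (halg : ∀ i, IsAlgebraic (Algebra.adjoin ℚ T) (x i)) :
    AlgebraicIndepOn ℚ id T ∧ T.encard = Fintype.card ι := by
  classical
  let M := AlgebraicIndependent.matroid ℚ ℂ
  have h1 : Set.range x ⊆ M.closure T := by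
    rintro _ ⟨i, rfl⟩
    show x i ∈ (AlgebraicIndependent.matroid ℚ ℂ).closure T
    rw [AlgebraicIndependent.matroid_closure_eq]
    exact halg i
  have h2 : M.Indep (Set.range x) := AlgebraicIndependent.matroid_indep_iff.2 hx.to_subtype_range
  have h3 : (Set.range x).encard = Fintype.card ι := by
    rw [← Set.image_univ, hx.injective.encard_image, Set.encard_univ, ENat.card_eq_coe_fintype_card]
  have h4 : (Fintype.card ι : ℕ∞) ≤ M.eRk T := by
    rw [← h3, ← h2.eRk_eq_encard, ← M.eRk_closure_eq T]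
    exact M.eRk_mono h1
  have h5 : M.eRk T ≤ T.encard := M.eRk_le_encard T
  have h6 : T.encard = Fintype.card ι := le_antisymm hT (h4.trans h5)
  have h7 : M.eRk T = T.encard := le_antisymm h5 (hT.trans h4)
  refine ⟨?_, h6⟩
  obtain ⟨I, hI⟩ := M.exists_isBasis' T
  have h8 : I.encard = T.encard := by rw [hI.encard_eq_eRk, h7]
  have hfin : T.Finite := by
    apply Set.finite_of_encard_le_coe hT
  have h9 : I = T := by
    apply hfin.eq_of_subset_of_encard_le' hI.subset
    rw [h8]
  have h10 : M.Indep T := h9 ▸ hI.indep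
  exact AlgebraicIndependent.matroid_indep_iff.1 h10

/-- If a subfield closed under square roots contains all squared distances and three suitable
coordinates then it contains all coordinates. -/
theorem coord_mem {V : Type} (p : V → Fin 2 → ℂ) (C : Subfield ℂ)
    (hsq : ∀ z : ℂ, z ^ 2 ∈ C → z ∈ C) (o o' : V) (hd : ∀ u v, sd p u v ∈ C)
    (h0 : p o 0 ∈ C) (h1 : p o 1 ∈ C) (h2 : p o' 0 ∈ C) (hne : sd p o o' ≠ 0) (v : V) (k : Fin 2) :
    p v k ∈ C := by
  set t1 := p o' 0 - p o 0 with ht1
  set t2 := p o' 1 - p o 1 with ht2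
  have hT0 : sd p o o' = t1 ^ 2 + t2 ^ 2 := by
    simp only [sd, Fin.sum_univ_two, ht1, ht2]; ring
  have ht1C : t1 ∈ C := C.sub_mem h2 h0
  have ht2C : t2 ∈ C := by
    apply hsq
    have : t2 ^ 2 = sd p o o' - t1 ^ 2 := by rw [hT0]; ring
    rw [this]
    exact C.sub_mem (hd _ _) (C.pow_mem ht1C 2)
  set w1 := p v 0 - p o 0 with hw1
  set w2 := p v 1 - p o 1 with hw2
  set m := w2 * t1 - w1 * t2 with hm
  have hs : 2 * (w1 * t1 + w2 * t2) = sd p v o - sd p v o' + sd p o o' := by
    simp only [sd, Fin.sum_univ_two, hw1, hw2, ht1, ht2]; ring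
  have htwo : (2 : ℂ) ∈ C := by
    have : (2 : ℂ) = 1 + 1 := by norm_num
    rw [this]; exact C.add_mem C.one_mem C.one_mem
  have hsC : w1 * t1 + w2 * t2 ∈ C := by
    have : w1 * t1 + w2 * t2 = (sd p v o - sd p v o' + sd p o o') / 2 := by
      rw [← hs]; ring
    rw [this]
    exact C.div_mem (C.add_mem (C.sub_mem (hd _ _) (hd _ _)) (hd _ _)) htwo
  have hmC : m ∈ C := by
    apply hsq
    have : m ^ 2 = sd p o o' * sd p v o - (w1 * t1 + w2 * t2) ^ 2 := by
      rw [hT0]
      simp only [sd, Fin.sum_univ_two, hm, hw1, hw2]; ring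
    rw [this]
    exact C.sub_mem (C.mul_mem (hd _ _) (hd _ _)) (C.pow_mem hsC 2)
  have hw1C : w1 ∈ C := by
    have : w1 = ((w1 * t1 + w2 * t2) * t1 - m * t2) / sd p o o' := by
      rw [eq_div_iff hne, hT0, hm]; ring
    rw [this]
    exact C.div_mem (C.sub_mem (C.mul_mem hsC ht1C) (C.mul_mem hmC ht2C)) (hd _ _)
  have hw2C : w2 ∈ C := by
    have : w2 = ((w1 * t1 + w2 * t2) * t2 + m * t1) / sd p o o' := by
      rw [eq_div_iff hne, hT0, hm]; ring
    rw [this]
    exact C.div_mem (C.add_mem (C.mul_mem hsC ht2C) (C.mul_mem hmC ht1C)) (hd _ _)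
  fin_cases k
  · have : p v 0 = w1 + p o 0 := by rw [hw1]; ring
    show p v 0 ∈ C
    rw [this]; exact C.add_mem hw1C h0
  · have : p v 1 = w2 + p o 1 := by rw [hw2]; ring
    show p v 1 ∈ C
    rw [this]; exact C.add_mem hw2C h1

/-- The subfield of complex numbers algebraic over a subalgebra. -/
def algField (S : Subalgebra ℚ ℂ) : Subfield ℂ where
  carrier := {z | IsAlgebraic S z}
  mul_mem' := fun ha hb => IsAlgebraic.mul ha hb
  one_mem' := isAlgebraic_one
  add_mem' := fun ha hb => IsAlgebraic.add ha hb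
  zero_mem' := isAlgebraic_zero
  neg_mem' := fun ha => IsAlgebraic.neg ha
  inv_mem' := fun _ ha => IsAlgebraic.inv ha

theorem mem_algField {S : Subalgebra ℚ ℂ} {z : ℂ} : z ∈ algField S ↔ IsAlgebraic S z := Iff.rfl

theorem sd_ne_zero {V : Type} (p : V → Fin 2 → ℂ)
    (hp : AlgebraicIndependent ℚ (fun x : V × Fin 2 => p x.1 x.2)) (u v : V) (huv : u ≠ v) :
    sd p u v ≠ 0 := by
  classical
  intro h
  let D : MvPolynomial (V × Fin 2) ℚ :=
    sd (fun v k => (MvPolynomial.X (v, k) : MvPolynomial (V × Fin 2) ℚ)) u v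
  have h1 : MvPolynomial.aeval (fun x : V × Fin 2 => p x.1 x.2) D = 0 := by
    simp only [D, sd, map_sum, map_pow, map_sub, MvPolynomial.aeval_X]
    exact h
  have h2 : D = 0 := by
    apply hp
    rw [h1, map_zero]
  have h3 := congrArg (MvPolynomial.eval (fun x : V × Fin 2 => if x = (u, 0) then (1 : ℚ) else 0)) h2
  simp [D, sd, Fin.sum_univ_two, huv.symm] at h3

/-- The Laman count forces the edge lengths of a generic framework to be algebraically independent
if all squared distances are algebraic over them. -/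
theorem edges_indep {V : Type} [Fintype V] (p : V → Fin 2 → ℂ)
    (hp : AlgebraicIndependent ℚ (fun x : V × Fin 2 => p x.1 x.2)) {E : Type} [Fintype E]
    (dE : E → ℂ) (hcard : Fintype.card E + 3 = 2 * Fintype.card V)
    (halg : ∀ u v, IsAlgebraic (Algebra.adjoin ℚ (Set.range dE)) (sd p u v)) :
    AlgebraicIndependent ℚ dE := by
  classical
  have hV : 1 < Fintype.card V := by omega
  obtain ⟨o, o', hoo⟩ := Fintype.one_lt_card_iff.1 hV
  set T : Set ℂ := Set.range dE ∪ {p o 0, p o 1, p o' 0} with hTdef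
  have hR : (Set.range dE).encard ≤ Fintype.card E := by
    rw [← Set.image_univ]
    refine (Set.encard_image_le _ _).trans ?_
    rw [Set.encard_univ, ENat.card_eq_coe_fintype_card]
  have h3 : ({p o 0, p o 1, p o' 0} : Set ℂ).encard ≤ 3 := by
    refine (Set.encard_insert_le _ _).trans ?_
    refine (add_le_add_left (Set.encard_insert_le _ _) 1).trans ?_
    rw [Set.encard_singleton]
    norm_num
  have hcard2 : Fintype.card (V × Fin 2) = Fintype.card E + 3 := by
    rw [Fintype.card_prod, Fintype.card_fin]; omega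
  have hT : T.encard ≤ Fintype.card (V × Fin 2) := by
    refine (Set.encard_union_le _ _).trans ?_
    rw [hcard2]
    push_cast
    exact add_le_add hR h3
  have hle : Algebra.adjoin ℚ (Set.range dE) ≤ Algebra.adjoin ℚ T :=
    Algebra.adjoin_mono Set.subset_union_left
  have hmem : ∀ z ∈ T, z ∈ algField (Algebra.adjoin ℚ T) := by
    intro z hz
    exact isAlgebraic_algebraMap (⟨z, Algebra.subset_adjoin hz⟩ : Algebra.adjoin ℚ T)
  have hd : ∀ u v, sd p u v ∈ algField (Algebra.adjoin ℚ T) := by
    intro u v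
    obtain ⟨f, hf0, hf⟩ := halg u v
    refine ⟨f.map (Subalgebra.inclusion hle).toRingHom, ?_, ?_⟩
    · rwa [Ne, Polynomial.map_eq_zero_iff]
      exact Subalgebra.inclusion_injective hle
    · rw [Polynomial.aeval_def, Polynomial.eval₂_map]
      exact hf
  have hsq : ∀ z : ℂ, z ^ 2 ∈ algField (Algebra.adjoin ℚ T) →
      z ∈ algField (Algebra.adjoin ℚ T) := by
    intro z hz
    exact IsAlgebraic.of_pow (by norm_num) hz
  have hall : ∀ i : V × Fin 2, IsAlgebraic (Algebra.adjoin ℚ T) (p i.1 i.2) := by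
    intro i
    exact coord_mem p (algField (Algebra.adjoin ℚ T)) hsq o o' hd
      (hmem _ (by simp [T])) (hmem _ (by simp [T])) (hmem _ (by simp [T]))
      (sd_ne_zero p hp o o' hoo) i.1 i.2
  obtain ⟨hind, hTc⟩ := indep_of_algebraic _ hp T hT hall
  have hR2 : (Fintype.card E : ℕ∞) ≤ (Set.range dE).encard := by
    have h4 : (Fintype.card E : ℕ∞) + 3 ≤ (Set.range dE).encard + 3 := by
      calc (Fintype.card E : ℕ∞) + 3 = ((Fintype.card E + 3 : ℕ) : ℕ∞) := by push_cast; rfl
        _ = T.encard := by rw [hTc, hcard2]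
        _ ≤ (Set.range dE).encard + ({p o 0, p o 1, p o' 0} : Set ℂ).encard :=
            Set.encard_union_le _ _
        _ ≤ (Set.range dE).encard + 3 := by gcongr
    exact (ENat.add_le_add_iff_right (by norm_num)).1 h4
  have hinj : Injective dE := by
    have h5 : (Set.range dE).encard = Fintype.card E := le_antisymm hR hR2
    have h6 : (dE '' Set.univ).encard = (Set.univ : Set E).encard := by
      rw [Set.image_univ, h5, Set.encard_univ, ENat.card_eq_coe_fintype_card]
    rw [← Set.injOn_univ]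
    exact Set.Finite.injOn_of_encard_image_eq (Set.toFinite _) h6
  have hind2 : AlgebraicIndepOn ℚ id (Set.range dE) := hind.mono Set.subset_union_left
  exact AlgebraicIndependent.of_subtype_range hinj hind2

end Pool.Agent.P52d521
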