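import Mathlib
import Pool.Agent.Lib.P52d521.Gram
import Pool.Agent.Lib.P52d521.Count
import Pool.Agent.Lib.P52d521.Indep

set_option autoImplicit false
set_option linter.style.haveILetI false

namespace Pool.Agent.P52d521

open Function

/-! ### Ring homomorphism versions -/

section ringhom

variable {B A Ω : Type} [CommRing B] [CommRing A] [Algebra B A] [Field Ω]

/-- Ring homomorphisms extending `y`. -/
def ext (A : Type) [CommRing A] [Algebra B A] (y : B →+* Ω) : Set (A →+* Ω) :=
  {x | x.comp (algebraMap B A) = y}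

theorem ext_equiv (y : B →+* Ω) :
    letI := y.toAlgebra
    Nonempty ((A →ₐ[B] Ω) ≃ ext A y) := by
  letI := y.toAlgebra
  refine ⟨⟨fun x => ⟨(x : A →+* Ω), ?_⟩, fun x => ⟨x.1, ?_⟩, ?_, ?_⟩⟩
  · show (x : A →+* Ω).comp (algebraMap B A) = y
    exact x.comp_algebraMap
  · intro b
    exact RingHom.congr_fun x.2 b
  · intro x; rfl
  · intro x; rfl

theorem isAlgebraic_of_finite' [IsDomain B] [IsDomain A] [FaithfulSMul B A]
    [Algebra.FiniteType B A] [IsAlgClosed Ω] (y : B →+* Ω) (hy : Injective y)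
    (h : (ext A y).Finite) : Algebra.IsAlgebraic B A := by
  letI := y.toAlgebra
  haveI : FaithfulSMul B Ω := (faithfulSMul_iff_algebraMap_injective _ _).2 hy
  obtain ⟨e⟩ := ext_equiv (A := A) y
  haveI := h.to_subtype
  exact isAlgebraic_of_finite (Ω := Ω) (Finite.of_equiv _ e.symm)

theorem card_le_card' [IsDomain B] [IsIntegrallyClosed B] [IsDomain A] [FaithfulSMul B A]
    [Algebra.FiniteType B A] [IsAlgClosed Ω] [CharZero Ω] (y₁ y₂ : B →+* Ω) (hy : Injective y₂)
    (h₁ : (ext A y₁).Finite) (h₂ : (ext A y₂).Finite) :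
    (ext A y₁).encard ≤ (ext A y₂).encard := by
  obtain ⟨e₁⟩ := ext_equiv (A := A) y₁
  obtain ⟨e₂⟩ := ext_equiv (A := A) y₂
  haveI f₁ := h₁.to_subtype
  haveI f₂ := h₂.to_subtype
  have key := @card_le_card B A Ω Ω _ _ _ _ _ _ _ _ _ _ _ y₁.toAlgebra _ _ _ y₂.toAlgebra
    (by
      letI := y₂.toAlgebra
      exact (faithfulSMul_iff_algebraMap_injective _ _).2 hy)
    (Finite.of_equiv _ e₁.symm) (Finite.of_equiv _ e₂.symm)
  rw [Nat.card_congr e₁, Nat.card_congr e₂] at key
  rw [← h₁.cast_ncard_eq, ← h₂.cast_ncard_eq]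
  exact_mod_cast key

end ringhom

/-! ### The algebra of squared distances -/

section dist

variable {V : Type} [Fintype V] (p : V → Fin 2 → ℂ)

/-- The algebra generated by all squared distances. -/
noncomputable def AA : Subalgebra ℚ ℂ := Algebra.adjoin ℚ (Set.range (fun e : V × V => sd p e.1 e.2))

/-- The squared distance as an element of `AA`. -/
noncomputable def dd (u v : V) : AA p := ⟨sd p u v, Algebra.subset_adjoin ⟨(u, v), rfl⟩⟩

theorem realise_hom [Nonempty V] (x : AA p →+* ℂ) :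
    ∃ r : V → Fin 2 → ℂ, ∀ u v, sd r u v = x (dd p u v) := by
  obtain ⟨o⟩ := ‹Nonempty V›
  refine realise (fun u v => x (dd p u v)) o ?_ ?_ ?_
  · intro u
    have : dd p u u = 0 := Subtype.ext (sd_self p u)
    simp only [this, map_zero]
  · intro u v
    have : dd p u v = dd p v u := Subtype.ext (sd_symm p u v)
    simp only [this]
  · intro a b c x' y z
    have h : det3 (fun u v => dd p u o + dd p v o - dd p u v) a b c x' y z = 0 := by
      apply Subtype.ext
      have := sd_det3 p o a b c x' y z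
      simp only [det3] at this ⊢
      exact this
    have h2 := congrArg x h
    simp only [det3, map_add, map_sub, map_mul, map_zero] at h2 ⊢
    exact h2

theorem hom_ext_dd (x y : AA p →+* ℂ) (h : ∀ u v, x (dd p u v) = y (dd p u v)) : x = y := by
  let x' : AA p →ₐ[ℚ] ℂ := ⟨x, fun q => RingHom.congr_fun
    (Subsingleton.elim (x.comp (algebraMap ℚ (AA p))) (algebraMap ℚ ℂ)) q⟩
  let y' : AA p →ₐ[ℚ] ℂ := ⟨y, fun q => RingHom.congr_fun
    (Subsingleton.elim (y.comp (algebraMap ℚ (AA p))) (algebraMap ℚ ℂ)) q⟩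
  have hxy : x' = y' := by
    apply AlgHom.adjoin_ext
    rintro _ ⟨e, rfl⟩
    exact h e.1 e.2
  ext a
  exact AlgHom.congr_fun hxy a

theorem exists_hom (hp : AlgebraicIndependent ℚ (fun x : V × Fin 2 => p x.1 x.2))
    (r : V → Fin 2 → ℂ) : ∃ x : AA p →+* ℂ, ∀ u v, x (dd p u v) = sd r u v := by
  classical
  let R := Algebra.adjoin ℚ (Set.range (fun x : V × Fin 2 => p x.1 x.2))
  have hmem : ∀ v k, p v k ∈ R := fun v k => Algebra.subset_adjoin ⟨(v, k), rfl⟩
  have hle : AA p ≤ R := by
    apply Algebra.adjoin_le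
    rintro _ ⟨e, rfl⟩
    exact R.sum_mem (fun k _ => R.pow_mem (R.sub_mem (hmem _ _) (hmem _ _)) 2)
  let ev : R →ₐ[ℚ] ℂ := (MvPolynomial.aeval (fun x : V × Fin 2 => r x.1 x.2)).comp
    (hp.aevalEquiv.symm : R →ₐ[ℚ] MvPolynomial (V × Fin 2) ℚ)
  have hev : ∀ v k, ev ⟨p v k, hmem v k⟩ = r v k := by
    intro v k
    have h1 : hp.aevalEquiv.symm ⟨p v k, hmem v k⟩ = MvPolynomial.X (v, k) := by
      rw [AlgEquiv.symm_apply_eq]
      apply Subtype.ext
      simp
    show (MvPolynomial.aeval (fun x : V × Fin 2 => r x.1 x.2))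
      (hp.aevalEquiv.symm ⟨p v k, hmem v k⟩) = r v k
    rw [h1]
    simp
  refine ⟨(ev.comp (Subalgebra.inclusion hle) : AA p →+* ℂ), ?_⟩
  intro u v
  have h2 : Subalgebra.inclusion hle (dd p u v)
      = ∑ k : Fin 2, ((⟨p u k, hmem u k⟩ : R) - ⟨p v k, hmem v k⟩) ^ 2 := by
    apply Subtype.ext
    simp [dd, sd]
  show ev (Subalgebra.inclusion hle (dd p u v)) = sd r u v
  rw [h2, map_sum]
  simp only [map_pow, map_sub, hev, sd]

end dist

section main

variable {V : Type} [Fintype V] (G : SimpleGraph V) (p : V → Fin 2 → ℂ)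

/-- The set of classes in the frozen statement. -/
def classes (q : V → Fin 2 → ℂ) : Set (Set (V → Fin 2 → ℂ)) :=
  {K | ∃ r : V → Fin 2 → ℂ, (∀ u v, G.Adj u v → sd r u v = sd q u v) ∧
    K = {s | ∀ u v, sd s u v = sd r u v}}

/-- Homomorphisms with prescribed edge lengths. -/
def homs (q : V → Fin 2 → ℂ) : Set (AA p →+* ℂ) :=
  {x | ∀ u v, G.Adj u v → x (dd p u v) = sd q u v}

theorem classes_encard [Nonempty V]
    (hp : AlgebraicIndependent ℚ (fun x : V × Fin 2 => p x.1 x.2)) (q : V → Fin 2 → ℂ) :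
    (classes G q).encard = (homs G p q).encard := by
  classical
  let Ψ : (AA p →+* ℂ) → Set (V → Fin 2 → ℂ) := fun x => {s | ∀ u v, sd s u v = x (dd p u v)}
  have hinj : Injective Ψ := by
    intro x y hxy
    obtain ⟨r, hr⟩ := realise_hom p x
    have h1 : r ∈ Ψ x := hr
    rw [hxy] at h1
    apply hom_ext_dd
    intro u v
    rw [← hr u v]; exact h1 u v
  have himg : classes G q = Ψ '' homs G p q := by
    ext K
    constructor
    · rintro ⟨r, hr, rfl⟩
      obtain ⟨x, hx⟩ := exists_hom p hp r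
      refine ⟨x, ?_, ?_⟩
      · intro u v huv
        rw [hx, hr u v huv]
      · simp only [Ψ, hx]
    · rintro ⟨x, hx, rfl⟩
      obtain ⟨r, hr⟩ := realise_hom p x
      refine ⟨r, ?_, ?_⟩
      · intro u v huv
        rw [hr u v]; exact hx u v huv
      · simp only [Ψ, hr]
  rw [himg, hinj.encard_image]

/-- Squared edge length. -/
noncomputable def dE (e : G.edgeSet) : ℂ := Sym2.lift ⟨fun u v => sd p u v, fun u v => sd_symm p u v⟩ e.1

theorem main (hcard : G.edgeSet.ncard + 3 = 2 * Fintype.card V) (p q : V → Fin 2 → ℂ)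
    (hp : AlgebraicIndependent ℚ (fun x : V × Fin 2 => p x.1 x.2))
    (hq : (classes G q).Finite) : (classes G q).encard ≤ (classes G p).encard := by
  classical
  haveI : Nonempty V := by
    rw [← Fintype.card_pos_iff]; omega
  haveI : Fintype G.edgeSet := Fintype.ofFinite _
  have hE : Fintype.card G.edgeSet + 3 = 2 * Fintype.card V := by
    rw [← hcard, Set.ncard_eq_toFinset_card', Set.toFinset_card]
  rw [classes_encard G p hp q, classes_encard G p hp p]
  have hq' : (homs G p q).Finite := by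
    rw [← Set.encard_lt_top_iff, ← classes_encard G p hp q, Set.encard_lt_top_iff]
    exact hq
  by_cases hpf : (homs G p p).Finite
  swap
  · have : (homs G p p).encard = ⊤ := Set.encard_eq_top_iff.2 hpf
    rw [this]; exact le_top
  -- the algebra generated by edge lengths
  let BB : Subalgebra ℚ ℂ := Algebra.adjoin ℚ (Set.range (dE G p))
  have hdE : ∀ u v (h : G.Adj u v), dE G p ⟨s(u, v), h⟩ = sd p u v := fun u v h => rfl
  have hle : BB ≤ AA p := by
    apply Algebra.adjoin_le
    rintro _ ⟨⟨e, he⟩, rfl⟩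
    induction e using Sym2.ind with
    | _ u v =>
      exact (dd p u v).2
  letI : Algebra BB (AA p) := (Subalgebra.inclusion hle).toRingHom.toAlgebra
  haveI : IsScalarTower ℚ BB (AA p) := IsScalarTower.of_algebraMap_eq (fun _ => rfl)
  haveI : FaithfulSMul BB (AA p) :=
    (faithfulSMul_iff_algebraMap_injective _ _).2 (Subalgebra.inclusion_injective hle)
  haveI : Algebra.FiniteType ℚ (AA p) := by
    rw [← Subalgebra.fg_iff_finiteType]
    exact ⟨(Set.finite_range _).toFinset, by rw [Set.Finite.coe_toFinset]; rfl⟩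
  haveI : Algebra.FiniteType BB (AA p) := Algebra.FiniteType.of_restrictScalars_finiteType ℚ BB _
  let bb : ∀ u v, G.Adj u v → BB := fun u v h => ⟨sd p u v, Algebra.subset_adjoin ⟨⟨s(u, v), h⟩, rfl⟩⟩
  have hbb : ∀ u v (h : G.Adj u v), algebraMap BB (AA p) (bb u v h) = dd p u v :=
    fun u v h => rfl
  have hBext : ∀ (y z : BB →+* ℂ), (∀ u v (h : G.Adj u v), y (bb u v h) = z (bb u v h)) → y = z := by
    intro y z hyz
    let y' : BB →ₐ[ℚ] ℂ := ⟨y, fun q => RingHom.congr_fun
      (Subsingleton.elim (y.comp (algebraMap ℚ BB)) (algebraMap ℚ ℂ)) q⟩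
    let z' : BB →ₐ[ℚ] ℂ := ⟨z, fun q => RingHom.congr_fun
      (Subsingleton.elim (z.comp (algebraMap ℚ BB)) (algebraMap ℚ ℂ)) q⟩
    have hxy : y' = z' := by
      apply AlgHom.adjoin_ext
      rintro _ ⟨⟨e, he⟩, rfl⟩
      induction e using Sym2.ind with
      | _ u v => exact hyz u v he
    ext a
    exact AlgHom.congr_fun hxy a
  -- the point of q
  have hhoms : ∀ q : V → Fin 2 → ℂ, ∃ y : BB →+* ℂ, (∀ u v h, y (bb u v h) = sd q u v) ∧
      homs G p q = ext (AA p) y := by
    intro q
    obtain ⟨x0, hx0⟩ := exists_hom p hp q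
    refine ⟨x0.comp (algebraMap BB (AA p)), ?_, ?_⟩
    · intro u v h
      rw [RingHom.comp_apply, hbb u v h, hx0]
    · ext x
      constructor
      · intro hx
        show x.comp (algebraMap BB (AA p)) = x0.comp (algebraMap BB (AA p))
        apply hBext
        intro u v h
        rw [RingHom.comp_apply, RingHom.comp_apply, hbb u v h, hx0, hx u v h]
      · intro hx u v h
        have := RingHom.congr_fun (show x.comp (algebraMap BB (AA p)) =
          x0.comp (algebraMap BB (AA p)) from hx) (bb u v h)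
        rw [RingHom.comp_apply, RingHom.comp_apply, hbb u v h, hx0] at this
        exact this
  obtain ⟨yq, -, hyq⟩ := hhoms q
  obtain ⟨yp, hyp', hyp⟩ := hhoms p
  have hypval : yp = BB.val.toRingHom := by
    apply hBext
    intro u v h
    rw [hyp' u v h]
    rfl
  have hypinj : Injective yp := by
    rw [hypval]
    exact Subtype.val_injective
  -- algebraicity
  have halg : Algebra.IsAlgebraic BB (AA p) :=
    isAlgebraic_of_finite' yp hypinj (hyp ▸ hpf)
  have halg2 : ∀ u v, IsAlgebraic BB (sd p u v) := by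
    intro u v
    obtain ⟨f, hf0, hf⟩ := halg.isAlgebraic (dd p u v)
    refine ⟨f, hf0, ?_⟩
    have h1 := congrArg (AA p).val hf
    rw [map_zero] at h1
    rw [← h1]
    rw [Polynomial.aeval_def, Polynomial.aeval_def]
    have : (AA p).val (Polynomial.eval₂ (algebraMap BB (AA p)) (dd p u v) f)
        = ((AA p).val : AA p →+* ℂ) (Polynomial.eval₂ (algebraMap BB (AA p)) (dd p u v) f) := rfl
    rw [this, Polynomial.hom_eval₂]
    rfl
  have hind : AlgebraicIndependent ℚ (dE G p) := edges_indep p hp (dE G p) hE halg2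
  haveI : IsIntegrallyClosed BB :=
    IsIntegrallyClosed.of_equiv (hind.aevalEquiv : MvPolynomial G.edgeSet ℚ ≃ₐ[ℚ] BB).toRingEquiv
  rw [hyq, hyp]
  exact card_le_card' yq yp hypinj (hyq ▸ hq') (hyp ▸ hpf)

end main

end Pool.Agent.P52d521
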