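import Mathlib
import Pool.Agent.Lib.P52d521.Main

/-! If one realisation of a graph with `|E| = 2|V| - 3` has finitely many equivalent realisations
up to congruence, so does every generic realisation, with the same number for all of them. -/

set_option autoImplicit false
set_option linter.style.haveILetI false

namespace Pool.Agent.P52d521

open Function

/-- Zariski's main theorem: a nonempty finite fibre forces algebraicity. -/
theorem isAlgebraic_of_finite_fibre {B : Type} {A : Type} {Ω : Type} [CommRing B] [IsDomain B]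
    [CommRing A] [IsDomain A] [Algebra B A] [FaithfulSMul B A] [Algebra.FiniteType B A]
    [Field Ω] [IsAlgClosed Ω] [Algebra B Ω] (h : Finite (A →ₐ[B] Ω)) (x : A →ₐ[B] Ω) (a : A) :
    IsAlgebraic B a := by
  classical
  let q : Ideal A := RingHom.ker (x : A →+* Ω)
  haveI : q.IsPrime := RingHom.ker_isPrime _
  haveI : Algebra.WeaklyQuasiFiniteAt B q := weaklyQuasiFiniteAt_of_finite h x q rfl
  have hz : Algebra.ZariskisMainProperty B q :=
    Algebra.ZariskisMainProperty.of_finiteType_of_weaklyQuasiFiniteAt q
  obtain ⟨r, hr, hri, hm⟩ := Algebra.zariskisMainProperty_iff.1 hz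
  obtain ⟨m, hm⟩ := hm a
  have hr0 : r ≠ 0 := by
    rintro rfl
    exact hr (by simp [q])
  have h1 : IsAlgebraic B (r ^ m * a) := hm.isAlgebraic
  have h2 : IsAlgebraic B (r ^ m) := (hri.pow m).isAlgebraic
  exact IsAlgebraic.of_mul (mem_nonZeroDivisors_of_ne_zero (pow_ne_zero m hr0)) h2 h1

variable {V : Type} [Fintype V] (G : SimpleGraph V)

/-- If some realisation `q` of a graph has only finitely many equivalent realisations up to
congruence, then so does every generic realisation `p`. -/
theorem generic_finite [Nonempty V] (p q : V → Fin 2 → ℂ)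
    (hp : AlgebraicIndependent ℚ (fun x : V × Fin 2 => p x.1 x.2))
    (hq : (classes G q).Finite) : (classes G p).Finite := by
  classical
  haveI : Fintype G.edgeSet := Fintype.ofFinite _
  have hq' : (homs G p q).Finite := by
    rw [← Set.encard_lt_top_iff, ← classes_encard G p hp q, Set.encard_lt_top_iff]
    exact hq
  suffices hpf : (homs G p p).Finite by
    rw [← Set.encard_lt_top_iff, classes_encard G p hp p, Set.encard_lt_top_iff]
    exact hpf
  -- the algebra generated by edge lengths
  let BB : Subalgebra ℚ ℂ := Algebra.adjoin ℚ (Set.range (dE G p))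
  have hle : BB ≤ AA p := by
    apply Algebra.adjoin_le
    rintro _ ⟨⟨e, he⟩, rfl⟩
    induction e using Sym2.ind with
    | _ u v =>
      exact (dd p u v).2
  letI : Algebra BB (AA p) := (Subalgebra.inclusion hle).toRingHom.toAlgebra
  haveI : IsScalarTower ℚ BB (AA p) := IsScalarTower.of_algebraMap_eq (fun _ => rfl)
  haveI : FaithfulSMul BB (AA p) :=
    (faithfulSMul_iff_algebraMap_injective _ _).2 (Subalgebra.inclusion_injective hle)
  haveI : Algebra.FiniteType ℚ (AA p) := by
    rw [← Subalgebra.fg_iff_finiteType]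
    exact ⟨(Set.finite_range _).toFinset, by rw [Set.Finite.coe_toFinset]; rfl⟩
  haveI : Algebra.FiniteType BB (AA p) := Algebra.FiniteType.of_restrictScalars_finiteType ℚ BB _
  let bb : ∀ u v, G.Adj u v → BB := fun u v h => ⟨sd p u v, Algebra.subset_adjoin ⟨⟨s(u, v), h⟩, rfl⟩⟩
  have hbb : ∀ u v (h : G.Adj u v), algebraMap BB (AA p) (bb u v h) = dd p u v :=
    fun u v h => rfl
  have hBext : ∀ (y z : BB →+* ℂ), (∀ u v (h : G.Adj u v), y (bb u v h) = z (bb u v h)) → y = z := by
    intro y z hyz
    let y' : BB →ₐ[ℚ] ℂ := ⟨y, fun q => RingHom.congr_fun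
      (Subsingleton.elim (y.comp (algebraMap ℚ BB)) (algebraMap ℚ ℂ)) q⟩
    let z' : BB →ₐ[ℚ] ℂ := ⟨z, fun q => RingHom.congr_fun
      (Subsingleton.elim (z.comp (algebraMap ℚ BB)) (algebraMap ℚ ℂ)) q⟩
    have hxy : y' = z' := by
      apply AlgHom.adjoin_ext
      rintro _ ⟨⟨e, he⟩, rfl⟩
      induction e using Sym2.ind with
      | _ u v => exact hyz u v he
    ext a
    exact AlgHom.congr_fun hxy a
  -- the point of q
  obtain ⟨x0, hx0⟩ := exists_hom p hp q
  set yq : BB →+* ℂ := x0.comp (algebraMap BB (AA p)) with hyq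
  have hhom : homs G p q = ext (AA p) yq := by
    ext x
    constructor
    · intro hx
      show x.comp (algebraMap BB (AA p)) = x0.comp (algebraMap BB (AA p))
      apply hBext
      intro u v h
      rw [RingHom.comp_apply, RingHom.comp_apply, hbb u v h, hx0, hx u v h]
    · intro hx u v h
      have := RingHom.congr_fun (show x.comp (algebraMap BB (AA p)) =
        x0.comp (algebraMap BB (AA p)) from hx) (bb u v h)
      rw [RingHom.comp_apply, RingHom.comp_apply, hbb u v h, hx0] at this
      exact this
  have halg : ∀ a : AA p, IsAlgebraic BB a := by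
    letI := yq.toAlgebra
    obtain ⟨e⟩ := ext_equiv (A := AA p) yq
    haveI : Finite (ext (AA p) yq) := (hhom ▸ hq').to_subtype
    have hx : x0 ∈ ext (AA p) yq := rfl
    intro a
    exact isAlgebraic_of_finite_fibre (Ω := ℂ) (Finite.of_equiv _ e.symm) (e.symm ⟨x0, hx⟩) a
  -- finitely many values at each squared distance
  have hval : ∀ t : V × V, ∃ F : Finset ℂ, ∀ x ∈ homs G p p, x (dd p t.1 t.2) ∈ F := by
    intro t
    obtain ⟨f, hf0, hf⟩ := halg (dd p t.1 t.2)
    refine ⟨(f.map BB.val.toRingHom).roots.toFinset, fun x hx => ?_⟩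
    have hxB : x.comp (algebraMap BB (AA p)) = BB.val.toRingHom := by
      apply hBext
      intro u v h
      rw [RingHom.comp_apply, hbb u v h, hx u v h]
      rfl
    rw [Multiset.mem_toFinset, Polynomial.mem_roots, Polynomial.IsRoot.def, Polynomial.eval_map,
      ← hxB, ← Polynomial.hom_eval₂, ← Polynomial.aeval_def, hf, map_zero]
    rwa [Ne, Polynomial.map_eq_zero_iff]
    exact Subtype.val_injective
  choose F hF using hval
  have hinj : Set.InjOn (fun (x : AA p →+* ℂ) (t : V × V) => x (dd p t.1 t.2)) (homs G p p) := by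
    intro x _ y _ hxy
    apply hom_ext_dd
    intro u v
    exact congrFun hxy (u, v)
  refine Set.Finite.of_injOn (t := Set.pi Set.univ (fun t : V × V => (F t : Set ℂ)))
    (fun x hx => ?_) hinj (Set.Finite.pi fun t => (F t).finite_toSet)
  intro t _
  exact hF t x hx

/-- Generic realisations exist. -/
theorem exists_generic (ι : Type) [Finite ι] : ∃ x : ι → ℂ, AlgebraicIndependent ℚ x := by
  obtain ⟨s, hs⟩ := exists_isTranscendenceBasis ℚ ℂ
  have hC : Cardinal.aleph0 < Cardinal.mk ℂ := by
    rw [Cardinal.mk_complex]; exact Cardinal.aleph0_lt_continuum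
  have h : Cardinal.mk ℂ = Cardinal.mk s :=
    IsAlgClosed.cardinal_eq_cardinal_transcendence_basis_of_aleph0_lt' _ hs (by simp) hC
  have : Infinite s := by
    rw [Cardinal.infinite_iff, ← h]; exact hC.le
  obtain ⟨n, ⟨e⟩⟩ := Finite.exists_equiv_fin ι
  let f : ι ↪ s := (e.toEmbedding.trans Fin.valEmbedding).trans (Infinite.natEmbedding s)
  exact ⟨fun i => (f i : ℂ), hs.1.comp f f.injective⟩

end Pool.Agent.P52d521
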